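import Pool.Agent.Results.MP_c1dca2_ag.SectionsAtFiniteLevels
import Pool.Agent.Run7.h369.AsmC

/-!
# At every finite level the sections of 100% of the twists have, on the elliptic quotients, the
# Kummer class of one rational point

Let `N ≥ 6` be even and let `e_1, …, e_N` be different integers which satisfy the condition `CrossRatio`
below.  For squarefree `d` let `C_d` be the curve `d y² = ∏ (x - e_k)`, of genus `N/2 - 1 ≥ 2`, with
function field `F = R(y) ⊆ Ω`, where `R = ℚ(x)` and `Ω` is an algebraic closure of `R`, and with the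
rational points `P_k = (e_k, 0)`.  Let `F_U` be the maximal extension of `F` in `Ω` which is unramified
over `U`, where `U` is `C_d` or an open subcurve, so that `π₁(U) = Gal(F_U/F)`.

Let `i` be one of the indices and let `T` be a set of four indices that does not contain `i`.  The
elliptic curve `E_T : D w² = ∏_{k ∈ T} (x - e_k)`, where `D = ∏_{k ∈ T} (e_i - e_k)` and where the origin is
the point `(e_t, 0)`, for some `t ∈ T`, has above `P_i` the rational points `Q = (e_i, 1)` and
`-Q = (e_i, -1)`.  Its function field `ℚ(x, w)` is contained in the maximal unramified pro-2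
extension of `ℚ̄ F`: the curve `E_T` is a quotient of an unramified abelian covering of `C_d`.

**Theorem.**  Let `n` be a natural number.  There are `δ > 0` and `C`, such that for all squarefree
`d`, `|d| ≤ X`, with at most `C X (log X)^(-δ)` exceptions, the following is true for every section
`s : G_ℚ → π₁(U)`.  There is exactly one branch point `P_i` such that `s` is attached to `P_i` modulo
2.  Let `T` be a set of four indices, without `i`, which satisfies the condition `NonSquares` below.  Then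
there is a function `w ∈ F_U`, fixed by the image of `s`, with `D w² = ∏_{k ∈ T} (x - e_k)`, and for the
tautological point `P = (x, w)` of `E_T` over the field `F_U^s` of the elements fixed by `s` there is a
sign such that `P ∓ Q` is divisible by `2^n` in the group `E_T(F_U^s)`.

In other words: the section `s` induces a section of `π₁(E_T) → G_ℚ`, that is, a class in
`H¹(ℚ, E_T[2^n])` for all `n`, and for 100% of the `d` this class is, at the level `2^n`, the Kummer
class of the rational point `Q` or `-Q` above `P_i`.  In `MP_c1dca2_ag.SectionsAtFiniteLevels` it was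
proved that every single value `s(σ)` is, at a given finite level, conjugate to the value at `σ` of the
section of `P_i`, where the conjugating element may depend on `σ`.  Here one element of
`E_T[2^n]` works for all `σ` together, so that the two sections of `π₁(E_T)` are conjugate at the
level `2^n`.  (For the elliptic curve this is not a formal consequence: an element of
`H¹(ℚ, E_T[2^n])` which is trivial on every procyclic subgroup need not be trivial, and the sign
could depend on `σ`.)

Proof.  Let `m = 2n + 8`, let `R₀` be a point with `2^m R₀ = P - Q`, and let `L ⊆ Ω` be the Galois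
extension of `ℚ(x)` which is generated by the coordinates of all `R₀` with `2^m R₀ = ± P - Q`.  It is
contained in the maximal unramified pro-2 extension of `ℚ̄ F` and is unramified over `x = e_i`, since the
functions `x(R) - r`, where `R` is a point and `r` a root of the cubic, are squares up to units at
every place.  So `SectionsAtFiniteLevels` can be applied to `L`.  By reduction at the places above
`P_i` one obtains, for the cocycles `a(σ) = s(σ) R₀ - R₀` and `b(σ)`, the cocycle of `-2Q`, with values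
in `E_T[2^m]`, that for all `σ` one of the values `a(σ)`, `a(σ) - b(σ)` is in
`(σ - 1) E_T[2^m]`.  The condition `NonSquares` implies that some `σ` acts on `E_T[2^m]` as `1 + 2 A`,
where `A` has order 3 modulo 2.  A theorem on groups that act on `(ℤ/2^m)²`
(`Run7.h369.Rig.rigid`) shows that then `a` or `a - b` is a coboundary modulo `2^n`.

The fundamental group is described through valuations.  Let `U` be a smooth geometrically connected
curve over `k` with function field `F`, let `Ω` be an algebraic closure of `F`, and let `F_U` be the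
maximal extension of `F` inside `Ω` which is unramified over the closed points of `U`, that is, over
their local rings, which are valuation rings of `F`.  Then `π₁(U) = Gal(F_U/F)`, and the map
`π₁(U) → G_k` is the restriction of automorphisms to the algebraic closure of `k` in `Ω`.
-/

set_option autoImplicit false

open Polynomial

namespace Pool.Agent.Results.MP_2f3286_ag.KummerClassesAtFiniteLevels

section definitions

variable (k F Ω : Type) [Field k] [Field F] [Field Ω] [Algebra k F] [Algebra F Ω]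
  [Algebra k Ω]

/-- The inertia group of the valuation ring `W` of `Ω`, as a subgroup of `Gal(Ω/F)`: the
automorphisms of `Ω` over `F` that map `W` onto itself and act as the identity on its residue
field. -/
noncomputable def inertia (W : ValuationSubring Ω) : Subgroup (Ω ≃ₐ[F] Ω) :=
  (W.inertiaSubgroup F).map (W.decompositionSubgroup F).subtype

/-- `F_U`, for a set `U` of valuation rings of `F`: the elements of `Ω` fixed by the inertia groups
of all valuation rings `W` of `Ω` with `W ∩ F ∈ U`.  If `Ω` is an algebraic closure of a field `F`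
of characteristic zero, this is the maximal extension of `F` in `Ω` unramified over `U`. -/
noncomputable def unramified (U : Set (ValuationSubring F)) : IntermediateField F Ω :=
  ⨅ W : {W : ValuationSubring Ω // W.comap (algebraMap F Ω) ∈ U},
    IntermediateField.fixedField (inertia F Ω W.1)

/-- The map `τ : M → M` acts as `σ : K → K` on the elements that the fields `K` and `M` have in
common when they are regarded as subfields of `Ω` through `i` and `j`. -/
def ActsAs {K M Ω : Type} [Field K] [Field M] [Field Ω] (i : K →+* Ω) (j : M →+* Ω) (σ : K → K)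
    (τ : M → M) : Prop :=
  ∀ c z, j z = i c → j (τ z) = i (σ c)

/-- Let `k ⊆ K ⊆ Ω` and `F ⊆ N ⊆ Ω` be fields.  A splitting of `Gal(N/F) → Gal(K/k)`: a continuous
homomorphism `s` from `Gal(K/k)` to `Gal(N/F)` such that `s(σ)` acts as `σ` on the elements of
`K ∩ N`. -/
structure Splitting (K N : Type) [Field K] [Field N] [Algebra k K] [Algebra F N] [Algebra K Ω]
    [Algebra N Ω] where
  /-- the homomorphism `Gal(K/k) → Gal(N/F)` -/
  toHom : (K ≃ₐ[k] K) →* (N ≃ₐ[F] N)
  cont : Continuous toHom
  compat : ∀ σ : K ≃ₐ[k] K, ActsAs (algebraMap K Ω) (algebraMap N Ω) σ (toHom σ)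

/-- The sections of `π₁(U) = Gal(F_U/F) → G_k`: the continuous homomorphisms `s` from
`G_k = Gal(k̄/k)` to `Gal(F_U/F)`, where `k̄` is the algebraic closure of `k` in `Ω`, such that
`s(σ)` acts as `σ` on the elements of `k̄`. -/
abbrev GaloisSection (U : Set (ValuationSubring F)) : Type :=
  Splitting k F Ω (algebraicClosure k Ω) (unramified F Ω U)

end definitions

section attached

variable {k F N L Ω K : Type} [Field k] [Field F] [Field N] [Field L] [Field Ω] [Algebra k F]
  [Algebra F Ω] [Algebra k Ω] [Algebra k L] [Algebra F N] [Algebra L Ω] [Algebra N Ω]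

/-- `z` is algebraic over `k`, where `k` is mapped to `M` by `i`. -/
def AlgOver {k M : Type} [Field k] [Field M] (i : k →+* M) (z : M) : Prop :=
  ∃ p : k[X], p ≠ 0 ∧ p.eval₂ i z = 0

/-- The subfield `M₂` of the extension `N` of `F`, generated over `F` by all elements of `N` that are
algebraic over `k`, and by all square roots in `N` of the functions `(x - e_i)/(x - e_j)`. -/
def M₂ (j : F →+* N) (e : K → k) (x : F) : Subfield N :=
  Subfield.closure (Set.range j ∪ {z | AlgOver (j.comp (algebraMap k F)) z} ∪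
    {z | ∃ i i', z ^ 2 * j (x - algebraMap k F (e i')) = j (x - algebraMap k F (e i))})

/-- The valuation ring `W` of `N` contains `k`, and the function `t ∈ F` is in its maximal ideal.  For
`t = x - e_i` this says that `W` is a prolongation of the valuation ring of `F` at the branch point
`P_i`. -/
def ZeroAt (k : Type) {F N : Type} [Field k] [Field F] [Field N] [Algebra k F] [Algebra F N]
    (W : ValuationSubring N) (t : F) : Prop :=
  (∀ c : k, algebraMap F N (algebraMap k F c) ∈ W) ∧ algebraMap F N t ∈ W.nonunits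

/-- The splitting `s` of `Gal(N/F) → Gal(L/k)` is attached modulo 2 to the branch point `P_i`: there
is a valuation ring `W` of `N` above `P_i`, such that the image of `s` lies in the decomposition group
of `W ∩ M₂`. -/
def AttachedModTwo (e : K → k) (x : F) (s : Splitting k F Ω L N) (i : K) : Prop :=
  ∃ W : ValuationSubring N, ZeroAt k W (x - algebraMap k F (e i)) ∧
    ∀ z ∈ M₂ (algebraMap F N) e x, ∀ σ, s.toHom σ z ∈ W ↔ z ∈ W

end attached

section elliptic

/-- The curve `y² = x³ + a x + b` over `N`. -/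
def cubic {N : Type} [Field N] (a b : N) : WeierstrassCurve N :=
  { a₁ := 0, a₂ := 0, a₃ := 0, a₄ := a, a₆ := b }

/-- `P` is the point `(x, y)` of the curve `E`. -/
def IsPt {N : Type} [Field N] {E : WeierstrassCurve N} (P : E.toAffine.Point) (x y : N) : Prop :=
  ∃ h, P = .some x y h

/-- The map `f : N → N` fixes the point `P` of `E`, that is, its coordinates. -/
def Fixes {N : Type} [Field N] {E : WeierstrassCurve N} (f : N → N) : E.toAffine.Point → Prop
  | .zero => True
  | .some x y _ => f x = x ∧ f y = y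

variable {k : Type} [Field k] (u t : k) (c : Fin 3 → k)

/-- The constant `D` for which the point `(u, 1)` is on the curve
`D w² = (x - t) (x - c_0) (x - c_1) (x - c_2)`. -/
def constD : k := (u - t) * ((u - c 0) * (u - c 1) * (u - c 2))

/-- The constant `g` of the coordinate `X = g / (x - t) + h` of the Weierstrass equation. -/
def constG : k := -((c 0 - t) * (c 1 - t) * (c 2 - t)) / constD u t c

/-- The constant `h` of the coordinate `X = g / (x - t) + h`; it makes the sum of the values of `X` at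
`c_0`, `c_1`, `c_2` equal to zero. -/
def constH : k :=
  -(constG u t c / (c 0 - t) + constG u t c / (c 1 - t) + constG u t c / (c 2 - t)) / 3

/-- The value of `X = g / (x - t) + h` at `x = c_j`, a root of the cubic polynomial. -/
def rootE (j : Fin 3) : k := constG u t c / (c j - t) + constH u t c

/-- The coefficient `a` of `X³ + a X + b = ∏ (X - rootE j)`. -/
def coefA : k := rootE u t c 0 * rootE u t c 1 + rootE u t c 0 * rootE u t c 2 +
  rootE u t c 1 * rootE u t c 2

/-- The coefficient `b` of `X³ + a X + b = ∏ (X - rootE j)`. -/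
def coefB : k := -(rootE u t c 0 * rootE u t c 1 * rootE u t c 2)

/-- The elliptic curve `E : Y² = X³ + a X + b` over the extension `N` of `k` (by `j`). -/
def curveE {N : Type} [Field N] (j : k →+* N) : WeierstrassCurve N :=
  cubic (j (coefA u t c)) (j (coefB u t c))

/-- `P` is the point of `E` with the coordinates `X = g / (x - t) + h`, `Y = g w / (x - t)²`, where
`(x, w)` is a point over `N` of `D w² = (x - t) (x - c_0) (x - c_1) (x - c_2)`. -/
def PointXW {N : Type} [Field N] (j : k →+* N) (x w : N)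
    (P : (curveE u t c j).toAffine.Point) : Prop :=
  j (constD u t c) * w ^ 2 = (x - j t) * ((x - j (c 0)) * (x - j (c 1)) * (x - j (c 2))) ∧
    IsPt P (j (constG u t c) / (x - j t) + j (constH u t c)) (j (constG u t c) * w / (x - j t) ^ 2)

open scoped Classical in
/-- Let `E` be the elliptic curve `D w² = (x - t) (x - c_0) (x - c_1) (x - c_2)` over `k`, with the
origin `(t, 0)` and with the rational point `Q = (u, 1)`, in the Weierstrass form
`Y² = X³ + a X + b`, where `X = g / (x - t) + h`, `Y = g w / (x - t)²`.  Let `N` be an extension of `k`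
(by `j`), let `s σ` be maps from `N` to itself, and let `x ∈ N`.  There is `w ∈ N`, fixed by all `s σ`,
such that `(x, w)` is a point `P` of `E` over `N`, and there is a point `R` of `E` over `N`, fixed by all
`s σ`, for which `2^n R` is equal to `P - Q` or to `P + Q`. -/
def KummerClassOf {G N : Type} [Field N] (j : k →+* N) (s : G → N → N) (x : N) (n : ℕ) : Prop :=
  ∃ (w : N) (P Q R : (curveE u t c j).toAffine.Point), (∀ σ, s σ w = w) ∧
    PointXW u t c j x w P ∧ PointXW u t c j (j u) 1 Q ∧
    (∀ σ, Fixes (s σ) R) ∧ (2 ^ n • R = P - Q ∨ 2 ^ n • R = P + Q)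

end elliptic

/-- The condition on the branch points: for `i ≠ k` there are `l, l'` different from `i` and `k`, such
that the integer `(e_i - e_l) (e_i - e_l') (e_k - e_l) (e_k - e_l')` is not a square. -/
def CrossRatio {K : Type} (e : K → ℤ) : Prop :=
  ∀ i k, i ≠ k → ∃ l l', l ≠ i ∧ l ≠ k ∧ l' ≠ i ∧ l' ≠ k ∧
    ¬ IsSquare ((e i - e l) * (e i - e l') * ((e k - e l) * (e k - e l')))

/-- The condition on four branch points: for the three partitions `{a, b}`, `{a', b'}` of the set
`{t, c_0, c_1, c_2}` the integer `(a - a') (a - b') (b - a') (b - b')` is not a square. -/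
def NonSquares (t : ℤ) (c : Fin 3 → ℤ) : Prop :=
  ¬ IsSquare ((c 0 - c 1) * (c 0 - c 2) * ((t - c 1) * (t - c 2))) ∧
  ¬ IsSquare ((c 1 - c 0) * (c 1 - c 2) * ((t - c 0) * (t - c 2))) ∧
  ¬ IsSquare ((c 2 - c 0) * (c 2 - c 1) * ((t - c 0) * (t - c 1)))

/-- The splitting `s` of `Gal(N/F) → Gal(L/k)` is attached to the branch point `P_i` and to no other
branch point modulo 2, and for all different branch points `e_t`, `e_(c 0)`, `e_(c 1)`, `e_(c 2)`, different
from `e_i`, which satisfy `NonSquares`, it has, at the level `2^n`, on the elliptic curve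
`D w² = (x - e_t) (x - e_(c 0)) (x - e_(c 1)) (x - e_(c 2))` the Kummer class of one of the rational
points `(e_i, 1)`, `(e_i, -1)`. -/
def HasKummerClasses {k F N L Ω K : Type} [Field k] [Field F] [Field N] [Field L] [Field Ω]
    [Algebra k F] [Algebra F Ω] [Algebra k Ω] [Algebra k L] [Algebra F N] [Algebra L Ω]
    [Algebra N Ω] (e : K → ℤ) (x : F) (s : Splitting k F Ω L N) (n : ℕ) (i : K) : Prop :=
  (∀ j, AttachedModTwo (fun j => (e j : k)) x s j ↔ j = i) ∧
    ∀ (t : K) (c : Fin 3 → K), Function.Injective c → (∀ j, c j ≠ t) → i ≠ t → (∀ j, i ≠ c j) →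
      NonSquares (e t) (fun j => e (c j)) →
      KummerClassOf (e i : k) (e t : k) (fun j => (e (c j) : k))
        ((algebraMap F N).comp (algebraMap k F)) (fun σ z => s.toHom σ z) (algebraMap F N x) n

/-- For every set `U` of valuation rings of `F` over `k` and every section of `π₁(U) → G_k` there is a
branch point `P_i` such that the section is attached to `P_i` and to no other branch point modulo 2 and
has, at the level `2^n`, on the elliptic curves the Kummer classes of rational points above `P_i`. -/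
def AllHaveKummerClasses (k F Ω : Type) [Field k] [Field F] [Field Ω] [Algebra k F] [Algebra F Ω]
    [Algebra k Ω] {K : Type} (e : K → ℤ) (x : F) (n : ℕ) : Prop :=
  ∀ U : Set (ValuationSubring F), (∀ O ∈ U, ∀ c : k, algebraMap k F c ∈ O) →
    ∀ s : GaloisSection k F Ω U, ∃ i, HasKummerClasses e x s n i

/-- Let `F = R(y) ⊆ Ω` be the function field of the curve `d y² = ∏ (x - e_i)` over `k`, where
`R = k(x)`.  All sections of `π₁(U) → G_k`, for all `U`, have the property above. -/
def SectionsHaveKummerClasses (k : Type) {R : Type} (Ω : Type) [Field k] [Field R] [Field Ω]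
    [Algebra k R] [Algebra R Ω] [Algebra k Ω] [IsScalarTower k R Ω] {K : Type} [Fintype K]
    (e : K → ℤ) (d : ℤ) (x : R) (n : ℕ) : Prop :=
  ∀ y : Ω, algebraMap k Ω (d : k) * y ^ 2 =
      ∏ i, (algebraMap R Ω x - algebraMap k Ω (e i : k)) →
    AllHaveKummerClasses k (IntermediateField.adjoin R {y}) Ω e
      (algebraMap R (IntermediateField.adjoin R {y}) x) n

open Run7.h369.Par Run7.h369.AsmL Run7.h369.AsmC Run7.h369.Bc Pool.Agent.TH954 Pool.Agent.TH942

lemma isPt_congr {N : Type} [Field N] {E : WeierstrassCurve N} {P : E.toAffine.Point}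
    {x y x' y' : N} (h : IsPt P x y) (hx : x = x') (hy : y = y') : IsPt P x' y' := by
  subst hx
  subst hy
  exact h

open scoped Classical in
/-- the class in terms of the library on division points -/
lemma class_of {k N G : Type} [Field k] [CharZero k] [Field N] [Algebra k N] {u t : k}
    {c : Fin 3 → k} (h : Dis u t c) (s : G → (N →ₐ[k] N)) (x : N) (n : ℕ) (w : N)
    (hX : x ≠ algebraMap k N t) (hw : Eqw u t c x w) (hfix : ∀ σ, s σ w = w)
    (R' : PM (aa u t c) (bb u t c) N) (hR : ∀ σ, pm (sw (aa u t c) (bb u t c)) (s σ) R' = R')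
    (h2 : 2 ^ n • R' = pt h _ w hX hw - qt h N ∨ 2 ^ n • R' = pt h _ w hX hw + qt h N) :
    KummerClassOf u t c (algebraMap k N) (fun σ z => s σ z) x n := by
  have key : ∀ W : WeierstrassCurve N, W = curveE u t c (algebraMap k N) →
      ∀ P Q R : W.toAffine.Point,
      IsPt P (algebraMap k N (constG u t c) / (x - algebraMap k N t) +
        algebraMap k N (constH u t c))
        (algebraMap k N (constG u t c) * w / (x - algebraMap k N t) ^ 2) →
      IsPt Q (algebraMap k N (constG u t c) / (algebraMap k N u - algebraMap k N t) +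
        algebraMap k N (constH u t c))
        (algebraMap k N (constG u t c) * 1 / (algebraMap k N u - algebraMap k N t) ^ 2) →
      (∀ σ, Fixes (fun z => s σ z) R) →
      (2 ^ n • R = P - Q ∨ 2 ^ n • R = P + Q) →
      KummerClassOf u t c (algebraMap k N) (fun σ z => s σ z) x n := by
    rintro _ rfl P Q R h1 h3 h4 h5
    refine ⟨w, P, Q, R, hfix, ⟨hw, h1⟩, ⟨?_, h3⟩, h4, h5⟩
    rw [one_pow, mul_one]
    simp only [← map_sub, ← map_mul]
    rfl
  refine key _ (base_eq _ _ N) (pt h _ w hX hw) (qt h N) R' ⟨_, rfl⟩ ?_ ?_ h2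
  · refine isPt_congr (x := xp u t c (algebraMap k N u)) (y := yp u t c (algebraMap k N u) 1)
      ⟨_, rfl⟩ ?_ ?_
    · unfold xp
      rfl
    · unfold yp
      rw [mul_one, mul_one]
      rfl
  · intro σ
    have h3 := hR σ
    rcases R' with _ | ⟨X, Y, hXY⟩
    · trivial
    · obtain ⟨h4, e4⟩ := pm_some (E := sw (aa u t c) (bb u t c)) (s σ) hXY
      rw [e4, WeierstrassCurve.Affine.Point.some.injEq] at h3
      exact h3

/-- the integers that define the polynomial -/
lemma poly_facts {k : Type} [Field k] [CharZero k] {K : Type} [Fintype K] [DecidableEq K]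
    (e : K → ℤ) (he : Function.Injective e) :
    (∏ i, (X - C (e i : k))).Separable ∧ (∏ i, (X - C (e i : k))).natDegree = Fintype.card K ∧
      ∀ j, aeval (e j : k) (∏ i, (X - C (e i : k))) = 0 := by
  have hek : Function.Injective (fun j => (e j : k)) := fun i j hij => he (by
    have h1 : (e i : k) = (e j : k) := hij
    exact_mod_cast h1)
  refine ⟨separable_prod_X_sub_C_iff.2 hek, ?_, fun j => ?_⟩
  · rw [natDegree_prod_of_monic _ _ fun i _ => monic_X_sub_C _,
      Finset.sum_congr rfl fun i _ => natDegree_X_sub_C _]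
    simp
  · rw [map_prod]
    refine Finset.prod_eq_zero (Finset.mem_univ j) ?_
    rw [map_sub, aeval_X, aeval_C]
    simp

open Pool.Agent.Y157.PS in
/-- one section, one level -/
theorem step {k R Ω F : Type} [Field k] [CharZero k] [Field R] [Field Ω] [Field F] [Algebra k R]
    [Algebra R Ω] [Algebra k Ω] [IsScalarTower k R Ω] [IsAlgClosure R Ω] [Algebra k F]
    [Algebra F Ω] [IsScalarTower k F Ω] {x : R} {u t : k} {c : Fin 3 → k}
    (hx : Transcendental k x) (h : Dis u t c) (hns : NonSq t c)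
    (hneg : ¬ IsSquare (-1 : k)) (n : ℕ) {w : Ω} (hw : Eqw u t c (algebraMap R Ω x) w)
    (L : IntermediateField R Ω)
    (hL : letI : DecidableEq Ω := Classical.decEq Ω
      ∀ T : PM (aa u t c) (bb u t c) Ω, 2 ^ (2 * (n + 3) + 2) • T =
        pt h (algebraMap R Ω x) w (x_ne hx t) hw - qt h Ω → InP L.toSubfield T)
    (xF : F) (hxx : algebraMap F Ω xF = algebraMap R Ω x)
    (hLp : ∀ z ∈ L, z ∈ geomPro 2 k F Ω)
    (z : Fin 3 → geomPro 2 k F Ω) (δ : algebraicClosure k Ω)
    (hz : ∀ j, ((z j : geomPro 2 k F Ω) : Ω) ^ 2 * (algebraMap R Ω x - algebraMap k Ω t) =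
        (algebraMap R Ω x - algebraMap k Ω (c j)))
    (hwz : w = (δ : Ω) * ((z 0 : Ω) * (z 1 : Ω) * (z 2 : Ω) *
        (algebraMap R Ω x - algebraMap k Ω t) ^ 2))
    (N : IntermediateField F Ω) (hN : geomPro 2 k F Ω ≤ N)
    (s : (algebraicClosure k Ω ≃ₐ[k] algebraicClosure k Ω) →* (N ≃ₐ[F] N))
    (hs : ∀ σ (c : algebraicClosure k Ω) (z : N), (z : Ω) = (c : Ω) → (s σ z : Ω) = (σ c : Ω))
    (W0 : ValuationSubring N) (M : Subfield N) (hM1 : ∀ f : F, algebraMap F N f ∈ M)
    (hM2 : ∀ z : N, IsAlgebraic k (z : Ω) → z ∈ M)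
    (hM3 : ∀ (z : N) (j : Fin 3), z ^ 2 * algebraMap F N (xF - algebraMap k F t) =
      algebraMap F N (xF - algebraMap k F (c j)) → z ∈ M)
    (hst : ∀ z ∈ M, ∀ σ, s σ z ∈ W0 ↔ z ∈ W0)
    (hW0c : ∀ a : k, algebraMap F N (algebraMap k F a) ∈ W0)
    (hW0x : algebraMap F N (xF - algebraMap k F u) ∈ W0.nonunits)
    (hpw : ∀ σ, ∃ (W : ValuationSubring N) (τ : N ≃ₐ[F] N),
      (∀ c : k, algebraMap F N (algebraMap k F c) ∈ W) ∧
      algebraMap F N (xF - algebraMap k F u) ∈ W.nonunits ∧ (∀ z, τ z ∈ W ↔ z ∈ W) ∧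
      (∀ (c : algebraicClosure k Ω) (z : N), (z : Ω) = (c : Ω) → (τ z : Ω) = (σ c : Ω)) ∧
      ∀ z : N, (z : Ω) ∈ L → τ z = s σ z) :
    KummerClassOf u t c ((algebraMap F N).comp (algebraMap k F)) (fun σ z => s σ z)
      (algebraMap F N xF) n := by
  have hcl : IsAlgClosed Ω := IsAlgClosure.isAlgClosed R
  have hcon : ∀ a : algebraicClosure k Ω, (a : Ω) ∈ N := fun a => hN (const_geomPro 2 k a)
  let eN : N →ₐ[k] Ω := N.val.restrictScalars k
  let j : algebraicClosure k Ω →ₐ[k] N :=
    { toFun := fun a => ⟨(a : Ω), hcon a⟩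
      map_one' := rfl
      map_mul' := fun _ _ => rfl
      map_zero' := rfl
      map_add' := fun _ _ => rfl
      commutes' := fun _ => rfl }
  have hxN : algebraMap R Ω x = ((algebraMap F N xF : N) : Ω) := hxx.symm
  have hkF : ∀ a : k, algebraMap k N a = algebraMap F N (algebraMap k F a) :=
    fun a => IsScalarTower.algebraMap_apply k F N a
  -- the function `w`
  obtain ⟨w', hw'⟩ : ∃ w' : N, (w' : Ω) = w ∧ w' ∈ M := by
    refine ⟨(⟨(δ : Ω), hcon δ⟩ : N) * ((⟨(z 0 : Ω), hN (z 0).2⟩ : N) * ⟨(z 1 : Ω), hN (z 1).2⟩ *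
      ⟨(z 2 : Ω), hN (z 2).2⟩ * (algebraMap F N (xF - algebraMap k F t)) ^ 2), ?_, ?_⟩
    · rw [hwz, hxN]
      have e1 : algebraMap k Ω t = ((algebraMap F N (algebraMap k F t) : N) : Ω) := by
        rw [← hkF]
        rfl
      rw [e1, map_sub]
      rfl
    · have hzM : ∀ l, (⟨(z l : Ω), hN (z l).2⟩ : N) ∈ M := by
        intro l
        refine hM3 _ l (Subtype.ext ?_)
        have h1 := hz l
        rw [hxN] at h1
        have e1 : ∀ a : k, algebraMap k Ω a = ((algebraMap F N (algebraMap k F a) : N) : Ω) := by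
          intro a
          rw [← hkF]
          rfl
        rw [e1, e1] at h1
        rw [map_sub, map_sub]
        exact h1
      exact M.mul_mem (hM2 _ (mem_algebraicClosure_iff.1 δ.2)) (M.mul_mem (M.mul_mem (M.mul_mem
        (hzM 0) (hzM 1)) (hzM 2)) (M.pow_mem (hM1 _) 2))
  obtain ⟨hww, hwM⟩ := hw'
  have hcst : ∀ W : ValuationSubring N, (∀ a : k, algebraMap F N (algebraMap k F a) ∈ W) →
      ∀ a : k, algebraMap k N a ∈ W := fun W hW a => by rw [hkF]; exact hW a
  have hxu : ∀ W : ValuationSubring N, algebraMap F N (xF - algebraMap k F u) ∈ W.nonunits →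
      algebraMap F N xF - algebraMap k N u ∈ W.nonunits := fun W hW => by
    rw [hkF, ← map_sub]
    exact hW
  have hEqw : Eqw u t c (algebraMap F N xF) w' := by
    apply (eN : N →+* Ω).injective
    change eN _ = eN _
    have e1 : eN (algebraMap F N xF) = algebraMap R Ω x := hxx
    have e2 : eN w' = w := hww
    simp only [map_mul, map_pow, map_sub, AlgHom.commutes, e1, e2]
    exact hw
  have hfix : ∀ σ, s σ w' = w' := fun σ => w_fixed h N (s σ) W0 M (fun z hz => hst z hz σ)
    (hcst W0 hW0c) (hxu W0 hW0x) hwM hEqw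
  obtain ⟨hX, hw'', R', hR1, hR2⟩ := core hx h hns hneg n hw L hL eN j
    (fun z hz => ⟨⟨z, hN (hLp z hz)⟩, rfl⟩)
    (fun σ => ((s σ : N →ₐ[F] N).restrictScalars k))
    (by
      intro σ σ'
      apply AlgHom.ext
      intro z
      change s (σ * σ') z = s σ (s σ' z)
      rw [map_mul]
      rfl)
    (by
      intro σ a
      apply Subtype.ext
      exact hs σ a (j a) rfl) (algebraMap F N xF) hxx (fun σ => (s σ).commutes xF) w' hww hfix (by
      intro σ
      obtain ⟨W, τ, h1, h2, h3, h4, h5⟩ := hpw σ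
      refine ⟨W, (τ : N →ₐ[F] N).restrictScalars k, hcst W h1, hxu W h2, h3, fun a => ?_,
        fun z hz => h5 z hz⟩
      apply Subtype.ext
      exact h4 a (j a) rfl)
  have hfin := class_of h (fun σ => ((s σ : N →ₐ[F] N).restrictScalars k)) (algebraMap F N xF) n
    w' hX hw'' hfix R' hR1 hR2
  have e1 : (algebraMap F N).comp (algebraMap k F) = algebraMap k N :=
    (IsScalarTower.algebraMap_eq k F N).symm
  rw [e1]
  exact hfin

lemma algOver_of {k F Ω : Type} [Field k] [Field F] [Field Ω] [Algebra k F] [Algebra F Ω]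
    [Algebra k Ω] [IsScalarTower k F Ω] (N : IntermediateField F Ω) (z : N)
    (hz : IsAlgebraic k (z : Ω)) : AlgOver ((algebraMap F N).comp (algebraMap k F)) z := by
  obtain ⟨p, hp1, hp2⟩ := hz
  refine ⟨p, hp1, ?_⟩
  apply (algebraMap N Ω).injective
  rw [map_zero, hom_eval₂, ← hp2, aeval_def]
  congr 1
  ext a
  exact (IsScalarTower.algebraMap_apply k F Ω a).symm

/-- a valid choice of an attached point and of four branch points -/
def Valid {K : Type} (e : K → ℤ) (p : K × K × (Fin 3 → K)) : Prop :=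
  Function.Injective p.2.2 ∧ (∀ j, p.2.2 j ≠ p.2.1) ∧ p.1 ≠ p.2.1 ∧ (∀ j, p.1 ≠ p.2.2 j) ∧
    NonSquares (e p.2.1) (fun j => e (p.2.2 j))

lemma valid_dis {k : Type} [Field k] [CharZero k] {K : Type} {e : K → ℤ}
    (he : Function.Injective e) {p : K × K × (Fin 3 → K)} (hp : Valid e p) :
    Dis (e p.1 : k) (e p.2.1 : k) (fun j => (e (p.2.2 j) : k)) := by
  have hek : ∀ i j, (e i : k) = (e j : k) → i = j := fun i j hij => he (by exact_mod_cast hij)
  exact ⟨fun i j hij => hp.1 (hek _ _ hij), fun j hj => hp.2.1 j (hek _ _ hj),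
    fun hj => hp.2.2.1 (hek _ _ hj), fun j hj => hp.2.2.2.1 j (hek _ _ hj)⟩

lemma valid_nonSq {K : Type} {e : K → ℤ} {p : K × K × (Fin 3 → K)} (hp : Valid e p) :
    NonSq (e p.2.1 : ℚ) (fun j => (e (p.2.2 j) : ℚ)) := by
  obtain ⟨h1, h2, h3⟩ := hp.2.2.2.2
  refine ⟨fun h => h1 ?_, fun h => h2 ?_, fun h => h3 ?_⟩ <;>
  · rw [← Rat.isSquare_intCast_iff]
    push_cast
    exact h

/-- the level field of a choice of branch points -/
def LevelOf (k : Type) {R : Type} (Ω : Type) [Field k] [CharZero k] [Field R] [Field Ω]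
    [Algebra k R] [Algebra R Ω] [Algebra k Ω] [IsScalarTower k R Ω] [IsAlgClosure R Ω] {K : Type}
    (e : K → ℤ) (x : R) (n : ℕ) (p : K × K × (Fin 3 → K)) (w : Ω)
    (L : IntermediateField R Ω) : Prop :=
  letI : DecidableEq Ω := Classical.decEq Ω
  ∀ (hx : Transcendental k x)
    (h : Dis (e p.1 : k) (e p.2.1 : k) (fun j => (e (p.2.2 j) : k))),
    ∃ hw : Eqw (e p.1 : k) (e p.2.1 : k) (fun j => (e (p.2.2 j) : k)) (algebraMap R Ω x) w,
    (∀ T : PM (aa (e p.1 : k) (e p.2.1 : k) (fun j => (e (p.2.2 j) : k)))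
        (bb (e p.1 : k) (e p.2.1 : k) (fun j => (e (p.2.2 j) : k))) Ω,
      2 ^ (2 * (n + 3) + 2) • T =
        pt h (algebraMap R Ω x) w (x_ne hx _) hw - qt h Ω → InP L.toSubfield T) ∧
      ∀ S : Subfield Ω, (∀ z : R, algebraMap R Ω z ∈ S) → w ∈ S →
        (∀ X Y, Y ^ 2 = (X - algebraMap k Ω (rr (e p.1 : k) (e p.2.1 : k)
          (fun j => (e (p.2.2 j) : k)) 0)) * (X - algebraMap k Ω (rr (e p.1 : k) (e p.2.1 : k)
          (fun j => (e (p.2.2 j) : k)) 1)) * (X - algebraMap k Ω (rr (e p.1 : k) (e p.2.1 : k)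
          (fun j => (e (p.2.2 j) : k)) 2)) → X ∈ S → Y ∈ S →
            ∀ j, ∃ β ∈ S, β ^ 2 = X - algebraMap k Ω (rr (e p.1 : k) (e p.2.1 : k)
          (fun j => (e (p.2.2 j) : k)) j)) →
        ∀ z ∈ L, z ∈ S

lemma exists_levelOf (k : Type) {R Ω : Type} [Field k] [CharZero k] [Field R] [Field Ω]
    [Algebra k R] [Algebra R Ω] [Algebra k Ω] [IsScalarTower k R Ω] [IsAlgClosure R Ω] {K : Type}
    (e : K → ℤ) (x : R) (hx : Transcendental k x) (n : ℕ) (p : K × K × (Fin 3 → K))
    (h : Dis (e p.1 : k) (e p.2.1 : k) (fun j => (e (p.2.2 j) : k))) :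
    ∃ (w : Ω) (L : IntermediateField R Ω), FiniteDimensional R L ∧ IsGalois R L ∧
      LevelOf k Ω e x n p w L := by
  obtain ⟨w, hw, L, h1, h2, h3, h4⟩ := exists_L (Ω := Ω) hx h (2 * (n + 3) + 2)
  exact ⟨w, L, h1, h2, fun _ _ => ⟨hw, h3, h4⟩⟩

open Pool.Agent.Y157.PS in
/-- one value of `d` -/
theorem per_d (k : Type) [Field k] [CharZero k] (hneg : ¬ IsSquare (-1 : k)) {K : Type}
    [Fintype K] [DecidableEq K] (e : K → ℤ) (he : Function.Injective e)
    (hev : Even (Fintype.card K)) (hcard : 3 ≤ Fintype.card K) (d : ℤ) (hd : d ≠ 0)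
    {R Ω : Type} [Field R] [Field Ω] [Algebra k R] [Algebra R Ω] [Algebra k Ω]
    [IsScalarTower k R Ω] [IsAlgClosure R Ω] (x : R) (hx : Transcendental k x)
    (hR : IntermediateField.adjoin k {x} = ⊤) (n : ℕ)
    (h0 : Pool.Agent.Results.MP_c1dca2_ag.SectionsAtFiniteLevels.SectionsActLikePoints k e d x
      (⊥ : IntermediateField R Ω))
    (hlev : ∀ p : K × K × (Fin 3 → K), Valid e p →
      NonSq (e p.2.1 : k) (fun j => (e (p.2.2 j) : k)) ∧
      ∃ (w : Ω) (L : IntermediateField R Ω), LevelOf k Ω e x n p w L ∧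
        Pool.Agent.Results.MP_c1dca2_ag.SectionsAtFiniteLevels.SectionsActLikePoints k e d x L) :
    SectionsHaveKummerClasses k Ω e d x n := by
  intro y hy U hU s
  have hcl : IsAlgClosed Ω := IsAlgClosure.isAlgClosed R
  have halgR : Algebra.IsAlgebraic R Ω := IsAlgClosure.isAlgebraic
  have halg : Algebra.IsAlgebraic (IntermediateField.adjoin R {y}) Ω :=
    Algebra.IsAlgebraic.tower_top (K := R) (IntermediateField.adjoin R {y})
  have htw : IsScalarTower k (IntermediateField.adjoin R {y}) Ω :=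
    IsScalarTower.of_algebraMap_eq fun _ => rfl
  have hdk : (d : k) ≠ 0 := by exact_mod_cast hd
  have hF := Pool.Agent.Results.MP_c1dca2_ag.SectionsAtFiniteLevels.adjoin_top (k := k) x hR y
  have hx' : Transcendental k (algebraMap R (IntermediateField.adjoin R {y}) x) :=
    (transcendental_algebraMap_iff (R := k)
      (algebraMap R (IntermediateField.adjoin R {y})).injective (a := x)).2 hx
  obtain ⟨yF, hyF⟩ : ∃ yF : IntermediateField.adjoin R {y},
      yF = ⟨y, IntermediateField.mem_adjoin_simple_self R y⟩ := ⟨_, rfl⟩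
  have hxy : algebraMap k (IntermediateField.adjoin R {y}) (d : k) * yF ^ 2 =
      ∏ i, (algebraMap R (IntermediateField.adjoin R {y}) x -
        algebraMap k (IntermediateField.adjoin R {y}) (e i : k)) := by
    apply (algebraMap (IntermediateField.adjoin R {y}) Ω).injective
    rw [map_mul, map_pow, map_prod,
      ← IsScalarTower.algebraMap_apply k (IntermediateField.adjoin R {y}) Ω, hyF]
    refine hy.trans (Finset.prod_congr rfl fun j _ => ?_)
    rw [map_sub, ← IsScalarTower.algebraMap_apply k (IntermediateField.adjoin R {y}) Ω,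
      ← IsScalarTower.algebraMap_apply R (IntermediateField.adjoin R {y}) Ω]
  rw [← hyF] at hF
  have hxyf : algebraMap k (IntermediateField.adjoin R {y}) (d : k) * yF ^ 2 =
      aeval (algebraMap R (IntermediateField.adjoin R {y}) x) (∏ i, (X - C (e i : k))) := by
    rw [hxy, map_prod]
    refine Finset.prod_congr rfl fun j _ => ?_
    rw [map_sub, aeval_X, aeval_C]
  have halg2 : Algebra.IsAlgebraic (IntermediateField.adjoin k
      {algebraMap R (IntermediateField.adjoin R {y}) x}) (IntermediateField.adjoin R {y}) :=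
    alg_of_eqn (by norm_num : 0 < 2) (∏ j, (X - C (e j : k))) (d : k) hdk _ yF hxyf hF
  have hle : geomPro 2 k (IntermediateField.adjoin R {y}) Ω ≤
      unramified (IntermediateField.adjoin R {y}) Ω U := (a_ind 2 k _ Ω _ hx' halg2 U hU).1
  obtain ⟨hsep, hdeg, hroot⟩ := poly_facts (k := k) e he
  obtain ⟨i, hi, -⟩ := h0 y hy (fun z hz => by
    obtain ⟨z', rfl⟩ := IntermediateField.mem_bot.1 hz
    rw [Pool.Agent.Results.MP_c1dca2_ag.SectionsAtFiniteLevels.proEll_eq]
    exact (geomPro 2 k (IntermediateField.adjoin R {y}) Ω).algebraMap_mem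
      (algebraMap R (IntermediateField.adjoin R {y}) z')) U hU ⟨s.toHom, s.cont, s.compat⟩
  refine ⟨i, hi, fun t c hc1 hc2 hc3 hc4 hc5 => ?_⟩
  obtain ⟨hns, w, L, hLev, hSAP⟩ := hlev (i, t, c) ⟨hc1, hc2, hc3, hc4, hc5⟩
  have hdis := valid_dis (k := k) he (p := (i, t, c)) ⟨hc1, hc2, hc3, hc4, hc5⟩
  obtain ⟨hw, hL3, hL4⟩ := hLev hx hdis
  obtain ⟨⟨z, δ, hz, hwz⟩, hpro⟩ := pro_L hdis hw (IntermediateField.adjoin R {y})
    (∏ i, (X - C (e i : k))) hsep (by rw [hdeg]; exact even_iff_two_dvd.1 hev)
    (by rw [hdeg]; exact hcard) (d : k) hdk _ yF hx' hxyf hF rfl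
    (fun z => ⟨algebraMap R (IntermediateField.adjoin R {y}) z, rfl⟩) (hroot t)
    (fun j => hroot (c j))
  have hLp := hpro L hL4
  obtain ⟨i', hi', hpt⟩ := hSAP y hy (fun z hz => by
    rw [Pool.Agent.Results.MP_c1dca2_ag.SectionsAtFiniteLevels.proEll_eq]
    exact hLp z hz) U hU ⟨s.toHom, s.cont, s.compat⟩
  have hii : i = i' := (hi' i).1 ((hi i).2 rfl)
  subst hii
  have hunr : Pool.Agent.Results.MP_c1dca2_ag.SectionsAtFiniteLevels.UnramifiedOver k x
      (e i : k) L := by
    intro W hW1 hW2 z hz hz0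
    obtain ⟨s', hs1, hs2⟩ := unr_L hdis hw L hL4 W hW1 hW2 z hz hz0
    exact ⟨s', hs1, hs2.2.1, hs2.2.2⟩
  have hpw := hpt hunr
  obtain ⟨W0, hW0, hst⟩ := (hi i).2 rfl
  exact step hx hdis hns hneg n hw L hL3 (algebraMap R (IntermediateField.adjoin R {y}) x) rfl
    hLp z δ hz hwz (unramified (IntermediateField.adjoin R {y}) Ω U) hle s.toHom
    (fun σ c z hz => s.compat σ c z hz) W0
    (M₂ (algebraMap (IntermediateField.adjoin R {y})
      (unramified (IntermediateField.adjoin R {y}) Ω U)) (fun j => (e j : k))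
        (algebraMap R (IntermediateField.adjoin R {y}) x))
    (fun f => Subfield.subset_closure (Or.inl (Or.inl ⟨f, rfl⟩)))
    (fun z hz => Subfield.subset_closure (Or.inl (Or.inr (algOver_of _ z hz))))
    (fun z j hz => Subfield.subset_closure (Or.inr ⟨c j, t, hz⟩))
    (fun z hz σ => hst z hz σ) hW0.1 hW0.2 (fun σ => by
      obtain ⟨W, τ, h1, h2, h3, h4⟩ := hpw σ
      exact ⟨W, τ, h1.1, h1.2, h2, fun c z hz => h3 c z hz, h4⟩)

set_option maxRecDepth 100000 in
lemma aux_ex : ∀ i j l m : Fin 6, i ≠ j → i ≠ l → i ≠ m → j ≠ l → j ≠ m → l ≠ m →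
    ((![0, 1, 2, 4, 7, 13] i - ![0, 1, 2, 4, 7, 13] l : ℤ) *
      (![0, 1, 2, 4, 7, 13] i - ![0, 1, 2, 4, 7, 13] m) *
      ((![0, 1, 2, 4, 7, 13] j - ![0, 1, 2, 4, 7, 13] l) *
        (![0, 1, 2, 4, 7, 13] j - ![0, 1, 2, 4, 7, 13] m)) < 0 ∨
    ∃ s ∈ ([3, 4, 6, 7, 8, 9, 10, 13, 16, 17, 19, 20, 22, 23, 28, 30, 31, 33, 38, 43, 44, 49, 62,
      70, 80] : List ℤ), s * s < (![0, 1, 2, 4, 7, 13] i - ![0, 1, 2, 4, 7, 13] l : ℤ) *
      (![0, 1, 2, 4, 7, 13] i - ![0, 1, 2, 4, 7, 13] m) *
      ((![0, 1, 2, 4, 7, 13] j - ![0, 1, 2, 4, 7, 13] l) *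
        (![0, 1, 2, 4, 7, 13] j - ![0, 1, 2, 4, 7, 13] m)) ∧
      (![0, 1, 2, 4, 7, 13] i - ![0, 1, 2, 4, 7, 13] l : ℤ) *
      (![0, 1, 2, 4, 7, 13] i - ![0, 1, 2, 4, 7, 13] m) *
      ((![0, 1, 2, 4, 7, 13] j - ![0, 1, 2, 4, 7, 13] l) *
        (![0, 1, 2, 4, 7, 13] j - ![0, 1, 2, 4, 7, 13] m)) < (s + 1) * (s + 1)) := by
  decide

lemma not_sq {n s : ℤ} (hs : 0 ≤ s) (h1 : s * s < n) (h2 : n < (s + 1) * (s + 1)) :
    ¬ IsSquare n := by
  rintro ⟨r, rfl⟩
  have h3 : |s| < |r| := by
    rw [← sq_lt_sq]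
    nlinarith
  have h4 : |r| < |s + 1| := by
    rw [← sq_lt_sq]
    nlinarith
  rw [abs_of_nonneg hs] at h3
  rw [abs_of_nonneg (by omega : 0 ≤ s + 1)] at h4
  omega

/-- the condition for an example -/
lemma nonSquares_ex (i j l m : Fin 6) (h1 : i ≠ j) (h2 : i ≠ l) (h3 : i ≠ m) (h4 : j ≠ l)
    (h5 : j ≠ m) (h6 : l ≠ m) :
    ¬ IsSquare ((![0, 1, 2, 4, 7, 13] i - ![0, 1, 2, 4, 7, 13] l : ℤ) *
      (![0, 1, 2, 4, 7, 13] i - ![0, 1, 2, 4, 7, 13] m) *
      ((![0, 1, 2, 4, 7, 13] j - ![0, 1, 2, 4, 7, 13] l) *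
        (![0, 1, 2, 4, 7, 13] j - ![0, 1, 2, 4, 7, 13] m))) := by
  rcases aux_ex i j l m h1 h2 h3 h4 h5 h6 with h | ⟨s, hs, h, h'⟩
  · rintro ⟨r, hr⟩
    rw [hr] at h
    exact absurd (mul_self_nonneg r) (not_le.2 h)
  · have hs0 : ∀ s ∈ ([3, 4, 6, 7, 8, 9, 10, 13, 16, 17, 19, 20, 22, 23, 28, 30, 31, 33, 38, 43,
        44, 49, 62, 70, 80] : List ℤ), 0 ≤ s := by decide
    exact not_sq (hs0 s hs) h h'

/-- (1) Let `e_k` be `N` different integers, where `N ≥ 6` is even, that satisfy the condition
`CrossRatio`, let `Ω` be an algebraic closure of `R = ℚ(x)` and let `n` be a natural number.  Then for all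
squarefree `d`, `|d| ≤ X`, with at most `C X (log X)^(-δ)` exceptions, the following is true: every
section of the fundamental group of the curve `d y² = ∏ (x - e_k)`, or of an open subcurve, is attached
modulo 2 to exactly one of the rational points `(e_k, 0)`, say `(e_i, 0)`, and for all sets
`{e_t, e_(c 0), e_(c 1), e_(c 2)}` of four branch points, different from `e_i`, which satisfy
`NonSquares`, it has at the level `2^n`, on the elliptic curve
`D w² = (x - e_t) (x - e_(c 0)) (x - e_(c 1)) (x - e_(c 2))`, the Kummer class of one of the rational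
points `(e_i, 1)`, `(e_i, -1)`.  (2) The integers `0, 1, 2, 4, 7, 13` satisfy the condition
`CrossRatio`, and all sets of four of them satisfy `NonSquares`. -/
theorem result :
    (∀ (K : Type) [Fintype K] (e : K → ℤ), Function.Injective e → Even (Fintype.card K) →
      6 ≤ Fintype.card K → CrossRatio e →
      ∀ (R Ω : Type) [Field R] [Field Ω] [Algebra ℚ R] [Algebra R Ω] [Algebra ℚ Ω]
      [IsScalarTower ℚ R Ω] [IsAlgClosure R Ω] (x : R), Transcendental ℚ x →
      IntermediateField.adjoin ℚ {x} = (⊤ : IntermediateField ℚ R) → ∀ n : ℕ,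
      ∃ δ C : ℝ, 0 < δ ∧ ∀ X : ℕ, 2 ≤ X →
        ({d : ℤ | d.natAbs ≤ X ∧ Squarefree d ∧
          ¬ SectionsHaveKummerClasses ℚ Ω e d x n}.ncard : ℝ) ≤
          C * X * (Real.log X) ^ (-δ)) ∧
    (CrossRatio (![0, 1, 2, 4, 7, 13] : Fin 6 → ℤ) ∧
      ∀ (t : Fin 6) (c : Fin 3 → Fin 6), Function.Injective c → (∀ j, c j ≠ t) →
        NonSquares ((![0, 1, 2, 4, 7, 13] : Fin 6 → ℤ) t)
          (fun j => (![0, 1, 2, 4, 7, 13] : Fin 6 → ℤ) (c j))) := by
  refine ⟨?_, ?_, ?_⟩
  · intro K _ e he hev hK hCR R Ω _ _ _ _ _ _ _ x hx hR n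
    classical
    have hneg : ¬ IsSquare (-1 : ℚ) := by
      rintro ⟨q, hq⟩
      nlinarith [mul_self_nonneg q]
    have hall : ∀ p : {p : K × K × (Fin 3 → K) // Valid e p},
        ∃ (w : Ω) (L : IntermediateField R Ω), FiniteDimensional R L ∧ IsGalois R L ∧
          LevelOf ℚ Ω e x n p.1 w L := fun p =>
      exists_levelOf ℚ e x hx n p.1 (valid_dis he p.2)
    choose w L hL1 hL2 hL3 using hall
    let LL : Option {p : K × K × (Fin 3 → K) // Valid e p} → IntermediateField R Ω :=
      fun o => o.elim ⊥ L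
    have hLL1 : ∀ o, FiniteDimensional R (LL o) := by
      rintro (_ | p)
      · change FiniteDimensional R (⊥ : IntermediateField R Ω)
        infer_instance
      · exact hL1 p
    have hLL2 : ∀ o, IsGalois R (LL o) := by
      rintro (_ | p)
      · change IsGalois R (⊥ : IntermediateField R Ω)
        infer_instance
      · exact hL2 p
    obtain ⟨δ, C, hδ, -, hC⟩ := Pool.Agent.Y547.PCQ.manyQ
      (Finset.univ : Finset (Option {p : K × K × (Fin 3 → K) // Valid e p}))
      (fun o d => Squarefree d ∧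
        ¬ Pool.Agent.Results.MP_c1dca2_ag.SectionsAtFiniteLevels.SectionsActLikePoints ℚ e d x
          (LL o)) (by
        intro o _
        obtain ⟨δ, C, hδ, h⟩ :=
          Pool.Agent.Results.MP_c1dca2_ag.SectionsAtFiniteLevels.result.1 K e he hev hK hCR R Ω x
            hx hR (LL o) (hLL1 o) (hLL2 o)
        refine ⟨δ, max C 0, hδ, le_max_right _ _, fun X hX => ?_⟩
        refine (h X hX).trans ?_
        have hX' : (2 : ℝ) ≤ X := by exact_mod_cast hX
        have hL0 : 0 < Real.log X := Real.log_pos (by linarith)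
        apply mul_le_mul_of_nonneg_right _ (Real.rpow_pos_of_pos hL0 _).le
        exact mul_le_mul_of_nonneg_right (le_max_left _ _) (by linarith))
    refine ⟨δ, C, hδ, fun X hX => le_trans ?_ (hC X hX)⟩
    have hfin : {d : ℤ | d.natAbs ≤ X ∧ ∃ o ∈
        (Finset.univ : Finset (Option {p : K × K × (Fin 3 → K) // Valid e p})), Squarefree d ∧
        ¬ Pool.Agent.Results.MP_c1dca2_ag.SectionsAtFiniteLevels.SectionsActLikePoints ℚ e d x
          (LL o)}.Finite := by
      refine (Finset.finite_toSet (Finset.Icc (-(X : ℤ)) X)).subset ?_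
      rintro d ⟨hd1, -⟩
      rw [Finset.mem_coe, Finset.mem_Icc]
      omega
    have hsub : {d : ℤ | d.natAbs ≤ X ∧ Squarefree d ∧
        ¬ SectionsHaveKummerClasses ℚ Ω e d x n} ⊆ {d : ℤ | d.natAbs ≤ X ∧ ∃ o ∈
        (Finset.univ : Finset (Option {p : K × K × (Fin 3 → K) // Valid e p})), Squarefree d ∧
        ¬ Pool.Agent.Results.MP_c1dca2_ag.SectionsAtFiniteLevels.SectionsActLikePoints ℚ e d x
          (LL o)} := by
      rintro d ⟨hd1, hd2, hd3⟩
      refine ⟨hd1, ?_⟩
      by_contra hno
      push Not at hno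
      apply hd3
      refine per_d ℚ hneg e he hev (by omega) d hd2.ne_zero x hx hR n
        (hno none (Finset.mem_univ _) hd2) fun p hp => ⟨valid_nonSq hp, w ⟨p, hp⟩, L ⟨p, hp⟩,
          hL3 ⟨p, hp⟩, hno (some ⟨p, hp⟩) (Finset.mem_univ _) hd2⟩
    exact_mod_cast Set.ncard_le_ncard hsub hfin
  · intro i k hik
    obtain ⟨l, m, h1, h2, h3, h4, h5⟩ : ∃ l m : Fin 6, l ≠ i ∧ l ≠ k ∧ m ≠ i ∧ m ≠ k ∧ l ≠ m := by
      revert i k
      decide
    exact ⟨l, m, h1, h2, h3, h4, nonSquares_ex i k l m hik h1.symm h3.symm h2.symm h4.symm h5⟩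
  · intro t c hc hct
    have n1 : c 0 ≠ c 1 := hc.ne (by decide)
    have n2 : c 0 ≠ c 2 := hc.ne (by decide)
    have n3 : c 1 ≠ c 2 := hc.ne (by decide)
    exact ⟨nonSquares_ex (c 0) t (c 1) (c 2) (hct 0) n1 n2 (hct 1).symm (hct 2).symm n3,
      nonSquares_ex (c 1) t (c 0) (c 2) (hct 1) n1.symm n3 (hct 0).symm (hct 2).symm n2,
      nonSquares_ex (c 2) t (c 0) (c 1) (hct 2) n2.symm n3.symm (hct 0).symm (hct 1).symm n1⟩

end Pool.Agent.Results.MP_2f3286_ag.KummerClassesAtFiniteLevels
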