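import Pool.Agent.Run7.h23.Gn.Zero
import Pool.Agent.Run7.h23.Gn.Idl
import Pool.Agent.Run7.h23.Se.Ex

/-!
# Sections of random odd hyperelliptic curves over all the 2-extensions

Let `F` be a number field, `g ≥ 1`, `T` a finite set of primes of `F`, and `K₀` any finite extension of `F`.

Theorem. There are a finite set `S` of primes of `F` (not over `2`, not in `T`, completely split in `K₀`)
and `c > 0` such that for all large `B` at least `c` times the number of ALL monic polynomials
`f` of degree `2 g + 1` over `𝓞 F` without term of degree `2 g` and of height at most `B` are irreducible and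
minimal and have the following property. Let `K / F` be ANY finite Galois extension of 2-power degree in which
* the primes over `2`, the primes in `S` and the real places of `F` split completely,
* every ramified prime `𝔭` is in `T` or `f` is irreducible modulo `𝔭`;
there is no bound on the degree of `K`, its Galois group (any 2-group) or the number of ramified primes, and the
conditions on `K` are stable under composita. Let `D` be any smooth curve over `K` with a map to
`C : y ^ 2 = f(x)`, for instance `C` or an open part of `C`, and let `s` be a birational section of `D` (a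
section of the absolute Galois group of the function field of `D`), or a section of `π₁(D) → G_K` which is
given over `K_w` by a point or a cusp of `D` for all finite places `w` of `K`. Then
(1) for all `n` the point `(x, y) - ∞` of the Jacobian `J` of `C` over the field of the elements fixed by `s` is
divisible by `2 ^ n`. That is, the class of `s` in `H¹(K, J[2 ^ n])` is zero, so that the section of
the geometrically abelian pro-2 fundamental group of `C` given by `s` is the one of the rational point `∞`;
(2) for all `v` over `2` the point (or cusp) of `D` which gives `s` over `K_v` lies above the point `∞` of `C`.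
This is the only rational point of `C` over `K`;
(3) so if for some `v` over `2` the curve `D` has no `K_v`-point above `∞`, then there is no section `s` as
above: `D` has no rational points, no birational sections and no locally geometric sections of
the fundamental group;
(4) this applies to the curves `y ^ 2 = f(x)`, `c z ^ 2 = h(x)`, where `h ∈ K[x]` is any monic polynomial and
`c ∈ K` is not a square in `K_v` for some `v` over `2`, for example to the hyperelliptic curves
`y ^ 2 = f(c z ^ 2 + b)` of genus `2 g`;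
(5) if `c` is an integer of `F` and `c` is not a square modulo `v ^ n`, for a prime `v` of `F` over `2`, then (4)
holds for this `c` over ALL the fields `K` at once. So for instance the curve `y ^ 2 = f(c z ^ 2 + b)` over `F`
satisfies the birational section conjecture over all the fields `K`.

In terms of fields: `L` is the function field of `D` (or any extension of `K` which contains a solution of
`y ^ 2 = f(x)`), `Ω` an algebraic closure of `L`, `N` an extension of `L` in `Ω` which contains the maximal
extension of `L` unramified at the valuation rings in `U`, the local rings of the closed points of `D`, so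
that `Gal(N/L)` is `π₁(D)` for the smallest `N`, `A` an algebraic closure of `K`. A section `s` of
`Gal(N/L) → Gal(A/K)` is given over `K_w` by a place of `N` over `K` with values in an algebraic closure of `K_w`
if the place is compatible with the Galois actions. If `N = Ω` this is true for all `s` and `w`
by a theorem of Koenigsmann, which is proved in the starting file `Pool/Agent/N890/KO`.

Proof. For these `f` and all the `K` one has `J(K) = 0`, and the 2-primary part of the Tate-Shafarevich group is zero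
(`MP_7ede32_ag.OneSetAllTwoExtensions`, `MP_a43263_nt.UniformOddHyperelliptic` and the files used there; project
PF of helper783 in the starting tree). New here: `Run7/h23/Se`. The reduction homomorphism of the ideal class groups
at a place of `N` (Gauss lemma for the ring of the place; the class of an ideal with generators is
mapped to the class of the reduced ideal, after a change by a principal ideal such that the
codimension is preserved; Galois descent from `Ω` to `N`), the torsion of `J` over `N` is the torsion over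
`A`, the classes `Q` with `2 ^ n Q = (x, y) - ∞` are defined over `N`; the cocycle `σ ↦ s(σ) Q - Q` with values in the
torsion over the algebraic closure of `K` is a coboundary in `J` at all finite places because of the
place of `N`, twice the cocycle also at the real places; so it comes from the Tate-Shafarevich group
and from `J(K)`, and is zero. This gives (1), and after reduction that the point over `K_v` which gives `s` is
infinitely 2-divisible in `J(K_v)`. By the local theorem at the primes over `2` (`Run7/h23/Lo`) the only such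
point of `C` is `∞`.
-/

set_option autoImplicit false
set_option linter.all false

namespace Pool.Agent.Results.MP_2f3286_ag.OddHyperellipticTwoExtensions

open Filter NumberField IsDedekindDomain Polynomial
open Pool.Agent.TH954 (GalSection Plc)
open Pool.Agent.W620.SC (unramified)
open scoped Classical

section defs

variable (F : Type) [Field F] [NumberField F]

/-- All monic polynomials of degree `2 g + 1` with coefficients in the ring of integers of `F`, without term
of degree `2 g`, such that all conjugates of the coefficient of `x ^ j` have absolute value at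
most `B ^ (2 g + 1 - j)`. -/
def Polys (g B : ℕ) : Set ((𝓞 F)[X]) :=
  {f | f.Monic ∧ f.natDegree = 2 * g + 1 ∧ f.coeff (2 * g) = 0 ∧
    ∀ j ≤ 2 * g, ∀ σ : F →+* ℂ, ‖σ (f.coeff j : F)‖ ≤ (B : ℝ) ^ (2 * g + 1 - j)}

variable {F}

/-- The polynomial over the extension `K` of `F`. -/
noncomputable def overK (K : Type) [Field K] [Algebra F K] (f : (𝓞 F)[X]) : K[X] :=
  (f.map (algebraMap (𝓞 F) F)).map (algebraMap F K)

/-- The equation `y ^ 2 = f(x)` is minimal: there is no prime `𝔭` such that `𝔭 ^ (2 i)` divides the coefficient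
of `x ^ (2 g + 1 - i)` for all `i > 0`. -/
def IsMinimal (g : ℕ) (f : (𝓞 F)[X]) : Prop :=
  ∀ 𝔭 : Ideal (𝓞 F), 𝔭.IsPrime → 𝔭 ≠ ⊥ → ¬ ∀ j ≤ 2 * g, f.coeff j ∈ 𝔭 ^ (2 * (2 * g + 1 - j))

/-- `f` is irreducible modulo the prime `𝔭`. -/
def IrreducibleMod (𝔭 : HeightOneSpectrum (𝓞 F)) (f : (𝓞 F)[X]) : Prop :=
  Irreducible (f.map (Ideal.Quotient.mk 𝔭.asIdeal))

variable (K : Type) [Field K] [NumberField K] [Algebra F K]

/-- The prime `𝔭` of `F` splits completely in `K`: for every prime `𝔓` over `𝔭` the square of `𝔓` does not divide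
`𝔭` and every integer of `K` is congruent to an integer of `F` modulo `𝔓`. -/
def SplitsCompletely (𝔭 : HeightOneSpectrum (𝓞 F)) : Prop :=
  ∀ 𝔓 : HeightOneSpectrum (𝓞 K), 𝔭.asIdeal.map (algebraMap (𝓞 F) (𝓞 K)) ≤ 𝔓.asIdeal →
    ¬ 𝔭.asIdeal.map (algebraMap (𝓞 F) (𝓞 K)) ≤ 𝔓.asIdeal ^ 2 ∧
      ∀ y : 𝓞 K, ∃ x : 𝓞 F, y - algebraMap (𝓞 F) (𝓞 K) x ∈ 𝔓.asIdeal

/-- The prime `𝔭` of `F` is ramified in `K`. -/
def Ramified (𝔭 : HeightOneSpectrum (𝓞 F)) : Prop :=
  ∃ 𝔓 : HeightOneSpectrum (𝓞 K), 𝔭.asIdeal.map (algebraMap (𝓞 F) (𝓞 K)) ≤ 𝔓.asIdeal ^ 2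

/-- The conditions on the Galois extension `K / F`: the degree is a power of two, the primes over `2`, the
primes in `S` and the real places (for a Galois extension: every embedding of `F` in `ℝ` extends to
`K`) split completely, and every ramified prime is in `T` or `f` is irreducible modulo it. -/
structure Allowed (S T : Finset (HeightOneSpectrum (𝓞 F))) (f : (𝓞 F)[X]) : Prop where
  degree : ∃ n : ℕ, Module.finrank F K = 2 ^ n
  two : ∀ 𝔭 : HeightOneSpectrum (𝓞 F), (2 : 𝓞 F) ∈ 𝔭.asIdeal → SplitsCompletely K 𝔭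
  split : ∀ 𝔭 ∈ S, SplitsCompletely K 𝔭
  real : ∀ ρ : F →+* ℝ, ∃ τ : K →+* ℝ, ∀ x : F, τ (algebraMap F K x) = ρ x
  ramified : ∀ 𝔭 : HeightOneSpectrum (𝓞 F), Ramified K 𝔭 → 𝔭 ∈ T ∨ IrreducibleMod 𝔭 f

end defs

section sections

/-- The section `s` is birational (`N` is the algebraic closure `Ω` of `L`), or `N` contains the maximal extension
of `L` unramified over a set `U` of valuation rings of `L` over `K` and `s` is given over all the completions
`K_w` at finite places by places of `N`. -/
def Geometric {K L Ω N A : Type} [Field K] [NumberField K] [Field L] [Field Ω] [Field N] [Field A]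
    [Algebra K L] [Algebra L Ω] [Algebra L N] [Algebra K N] [Algebra K A]
    (e : N →ₐ[L] Ω) (s : GalSection K L N A) : Prop :=
  Function.Surjective e ∨
    ((∃ U : Set (ValuationSubring L), (∀ O ∈ U, ∀ c : K, algebraMap K L c ∈ O) ∧
      unramified L Ω U ≤ e.fieldRange) ∧
    ∀ w : HeightOneSpectrum (𝓞 K),
      ∃ p : Plc K N (AlgebraicClosure (w.adicCompletion K)), s.GivenBy (w.adicCompletion K) p)

/-- There are no such sections for the field `L`. -/
def NoSection (K L : Type) [Field K] [NumberField K] [Field L] [Algebra K L] : Prop :=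
  ∀ (Ω N A : Type) [Field Ω] [Field N] [Field A] [Algebra L Ω] [Algebra K Ω] [Algebra L N]
    [Algebra K N] [Algebra K A] [IsScalarTower K L Ω] [IsScalarTower K L N] [IsAlgClosure L Ω]
    [IsAlgClosure K A] (e : N →ₐ[L] Ω) (s : GalSection K L N A), ¬ Geometric e s

/-- The class of the point `(a, b)` of the curve `y ^ 2 = P(x)` in the class group of the coordinate ring
`M[x, y] / (y ^ 2 - P(x))` (the Jacobian, if `P` is separable of odd degree) is divisible by `m`: for some ideal
`J` and some `u, v` all different from zero, `u (x - a, y - b) = v J ^ m`. -/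
def PointDivisible {M : Type} [Field M] (P : M[X]) (a b : M) (m : ℕ) : Prop :=
  ∃ J : Ideal (AdjoinRoot (X ^ 2 - C P : M[X][X])), J ≠ ⊥ ∧
    ∃ u v : AdjoinRoot (X ^ 2 - C P : M[X][X]), u ≠ 0 ∧ v ≠ 0 ∧
      Ideal.span {u} * Ideal.span {AdjoinRoot.of _ (X - C a),
        AdjoinRoot.root _ - AdjoinRoot.of _ (C b)} = Ideal.span {v} * J ^ m

/-- The point `(x, y)` of `y ^ 2 = P(x)` over `L` is divisible by `m` over the extension `M`. -/
def DivisibleOver {K L : Type} [Field K] [Field L] (M : Type) [Field M] [Algebra K M] [Algebra L M]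
    (P : K[X]) (x y : L) (m : ℕ) : Prop :=
  PointDivisible (P.map (algebraMap K M)) (algebraMap L M x) (algebraMap L M y) m

/-- The point `(x, y)` is divisible by `m` over the field of the elements of `N` fixed by `s`. -/
def DivisibleOverFixedField {K L N A : Type} [Field K] [Field L] [Field N] [Field A] [Algebra K L]
    [Algebra L N] [Algebra K N] [Algebra K A] [IsScalarTower K L N] (s : GalSection K L N A)
    (P : K[X]) (x y : L) (m : ℕ) : Prop :=
  DivisibleOver (IntermediateField.fixedField s.s.range) P x y m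

variable {F : Type} [Field F] [NumberField F] (K : Type) [Field K] [NumberField K] [Algebra F K]

/-- The class of a section is zero: the point `(x, y)` is divisible by `2 ^ n` over the fixed field of `s`. -/
def ClassZero (f : (𝓞 F)[X]) : Prop :=
  ∀ (L Ω N A : Type) [Field L] [Field Ω] [Field N] [Field A] [Algebra K L] [Algebra L Ω]
    [Algebra K Ω] [Algebra L N] [Algebra K N] [Algebra K A] [IsScalarTower K L Ω]
    [IsScalarTower K L N] [IsAlgClosure L Ω] [IsAlgClosure K A] (e : N →ₐ[L] Ω)
    (s : GalSection K L N A) (x y : L), y ^ 2 = aeval x (overK K f) → Geometric e s → ∀ n : ℕ,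
    DivisibleOverFixedField s (overK K f) x y (2 ^ n)

/-- Over the completions at the primes over `2` the section is given by points above infinity. -/
def PointsAtInfinity (f : (𝓞 F)[X]) : Prop :=
  ∀ (L Ω N A : Type) [Field L] [Field Ω] [Field N] [Field A] [Algebra K L] [Algebra L Ω]
    [Algebra K Ω] [Algebra L N] [Algebra K N] [Algebra K A] [IsScalarTower K L Ω]
    [IsScalarTower K L N] [IsAlgClosure L Ω] [IsAlgClosure K A] (e : N →ₐ[L] Ω)
    (s : GalSection K L N A) (x y : L), y ^ 2 = aeval x (overK K f) → Geometric e s →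
    ∀ v : HeightOneSpectrum (𝓞 K), (2 : 𝓞 K) ∈ v.asIdeal →
    ∀ (C' : Type) [Field C'] [Algebra K C'] [Algebra (v.adicCompletion K) C']
      [IsScalarTower K (v.adicCompletion K) C'] [IsAlgClosure (v.adicCompletion K) C']
      (p : Plc K N C'), s.GivenBy (v.adicCompletion K) p → algebraMap L N x ∉ p.W

/-- No sections for the curves without local points above infinity at some prime over `2`. -/
def NoneWithoutPoints (f : (𝓞 F)[X]) : Prop :=
  ∀ v : HeightOneSpectrum (𝓞 K), (2 : 𝓞 K) ∈ v.asIdeal → ∀ (L : Type) [Field L] [Algebra K L]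
    (x y : L), y ^ 2 = aeval x (overK K f) → (∀ q : Plc K L (v.adicCompletion K), x ∈ q.W) →
    NoSection K L

/-- No sections for the curves `y ^ 2 = f(x)`, `c z ^ 2 = h(x)`, if `c` is not a square in `K_v` for some `v`
over `2`. -/
def NoneOnDoubles (f : (𝓞 F)[X]) : Prop :=
  ∀ v : HeightOneSpectrum (𝓞 K), (2 : 𝓞 K) ∈ v.asIdeal → ∀ c : K,
    ¬ IsSquare (algebraMap K (v.adicCompletion K) c) → ∀ h : K[X], h.Monic →
    ∀ (L : Type) [Field L] [Algebra K L] (x y z : L), y ^ 2 = aeval x (overK K f) →
      algebraMap K L c * z ^ 2 = aeval x h → NoSection K L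

/-- The same for `c` in the ring of integers of `F` which is not a square modulo a power of some prime of
`F` over `2`. -/
def NoneOnDoublesOverBase (f : (𝓞 F)[X]) : Prop :=
  ∀ v : HeightOneSpectrum (𝓞 F), (2 : 𝓞 F) ∈ v.asIdeal → ∀ (c : 𝓞 F) (n : ℕ),
    (∀ t : 𝓞 F, t ^ 2 - c ∉ v.asIdeal ^ n) → ∀ h : K[X], h.Monic →
    ∀ (L : Type) [Field L] [Algebra K L] (x y z : L), y ^ 2 = aeval x (overK K f) →
      algebraMap K L (algebraMap F K c) * z ^ 2 = aeval x h → NoSection K L

/-- The properties over `K`. -/
structure OnlyInfinity (f : (𝓞 F)[X]) : Prop where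
  classZero : ClassZero K f
  points : PointsAtInfinity K f
  none : NoneWithoutPoints K f
  doubles : NoneOnDoubles K f
  doublesOverBase : NoneOnDoublesOverBase K f

/-- The property of `f` in the theorem. -/
def Uniform (S T : Finset (HeightOneSpectrum (𝓞 F))) (f : (𝓞 F)[X]) : Prop :=
  ∀ (K : Type) [Field K] [NumberField K] [Algebra F K] [IsGalois F K], Allowed K S T f →
    OnlyInfinity K f

end sections

theorem ht_iff {F : Type} [Field F] [NumberField F] (g B : ℕ) (f : (𝓞 F)[X]) :
    Pool.Agent.N783.PF.Ht g B f ↔ f ∈ Polys F g B :=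
  ⟨fun h => ⟨h.mon, h.deg, h.tr, h.ht⟩, fun h => ⟨h.1, h.2.1, h.2.2.1, h.2.2.2⟩⟩

theorem mem (F : Type) [Field F] [NumberField F] (g B : ℕ) : (X ^ (2 * g + 1) : (𝓞 F)[X]) ∈ Polys F g B := by
  refine ⟨monic_X_pow _, natDegree_X_pow _, ?_, fun j hj σ => ?_⟩
  · rw [coeff_X_pow, if_neg (by omega)]
  · rw [coeff_X_pow, if_neg (by omega)]
    simp

/-- Reduction of the two cases to one. -/
theorem adm_of {K L Ω N A : Type} [Field K] [NumberField K] [Field L] [Field Ω] [Field N] [Field A]
    [Algebra K L] [Algebra L Ω] [Algebra L N] [Algebra K N] [Algebra K A] [IsScalarTower K L N]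
    [IsAlgClosure L Ω] {e : N →ₐ[L] Ω} {s : GalSection K L N A} (h : Geometric e s) :
    (∃ U : Set (ValuationSubring L), (∀ O ∈ U, ∀ c : K, algebraMap K L c ∈ O) ∧
      unramified L Ω U ≤ e.fieldRange) ∧ Run7.h23.Se.Adm s := by
  rcases h with h | ⟨h1, h2⟩
  · haveI : IsAlgClosed Ω := IsAlgClosure.isAlgClosed L
    haveI : Algebra.IsAlgebraic L Ω := IsAlgClosure.isAlgebraic
    refine ⟨⟨∅, fun _ h => absurd h (Set.notMem_empty _), ?_⟩, Or.inl ⟨?_, ?_⟩⟩
    · rw [AlgHom.fieldRange_eq_top.2 h]
      exact le_top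
    · exact IsAlgClosed.of_ringEquiv Ω N
        (AlgEquiv.ofBijective e ⟨e.injective, h⟩).symm.toRingEquiv
    · exact Algebra.IsAlgebraic.of_injective e e.injective
  · exact ⟨h1, Or.inr h2⟩

/-- A prime above `v`. -/
theorem exists_above {F K : Type} [Field F] [NumberField F] [Field K] [NumberField K] [Algebra F K]
    (v : HeightOneSpectrum (𝓞 F)) : ∃ w : HeightOneSpectrum (𝓞 K),
      v.asIdeal.map (algebraMap (𝓞 F) (𝓞 K)) ≤ w.asIdeal := by
  obtain ⟨Q, hQ, hQv⟩ := Ideal.exists_maximal_ideal_liesOver_of_isIntegral (S := 𝓞 K) v.asIdeal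
  have hQ0 : Q ≠ ⊥ := by
    rintro rfl
    apply v.ne_bot
    rw [hQv.over]
    exact Ideal.comap_bot_of_injective _ (FaithfulSMul.algebraMap_injective (𝓞 F) (𝓞 K))
  refine ⟨⟨Q, hQ.isPrime, hQ0⟩, ?_⟩
  rw [Ideal.map_le_iff_le_comap]
  exact hQv.over.le

open Pool.Agent.Y160.SE in
theorem only {F : Type} [Field F] [NumberField F] {K : Type} [Field K] [NumberField K]
    [Algebra F K] {g : ℕ} (hg : 1 ≤ g) {f : (𝓞 F)[X]} (hm : f.Monic)
    (hd : f.natDegree = 2 * g + 1)
    (hi : Irreducible (overK K f))
    (hu : Pool.Agent.N874.Jac.UniquelyTwoDivisible (overK K f))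
    (hS : Pool.Agent.N874.Jac.ShaTwoTrivialReal (overK K f) (𝓞 K))
    (hR : ∀ v : HeightOneSpectrum (𝓞 F), (2 : 𝓞 F) ∈ v.asIdeal → Run7.h23.Lo.RegAt v g f)
    (h2s : ∀ v : HeightOneSpectrum (𝓞 F), (2 : 𝓞 F) ∈ v.asIdeal → SplitsCompletely K v) :
    OnlyInfinity K f := by
  set P := overK K f with hPdef
  have hP : (f.map (algebraMap (𝓞 F) (𝓞 K))).map (algebraMap (𝓞 K) K) = P :=
    Run7.h23.Gn.fF_map f
  have h7 := Run7.h23.Gn.cls_zero (K := K) hm hd hR
    (fun v hv w hw => (h2s v hv w hw).1) hP hi hu
  have hPm : P.Monic := by rw [← hP]; exact (hm.map _).map _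
  have hPd : P.natDegree = 2 * g + 1 := by
    rw [← hP, (hm.map _).natDegree_map, hm.natDegree_map, hd]
  have hG := Run7.h23.Gn.good_of hPm hi (by rw [hPd]; exact odd_two_mul_add_one g)
  have h0 : ∀ x : Jac 2 P K, x = 0 := by
    have h8 : ∀ I : Ideal (CR 2 (P.map (algebraMap K K))), I ≠ ⊥ → Eqv I ⊤ := by
      rw [show P.map (algebraMap K K) = P by rw [Algebra.algebraMap_self, Polynomial.map_id]]
      exact h7
    intro x
    obtain ⟨I, hI, hIx⟩ := exists_cl (Ω := K) hyps hG x
    exact (cl_zero_iff hyps hG hIx).2 (h8 I hI)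
  have hm' : (f.map (algebraMap (𝓞 F) (𝓞 K))).Monic := hm.map _
  have hd' : (f.map (algebraMap (𝓞 F) (𝓞 K))).natDegree = 2 * g + 1 := by
    rw [hm.natDegree_map, hd]
  -- the condition at the primes over 2
  have hR' : ∀ w : HeightOneSpectrum (𝓞 K), (2 : 𝓞 K) ∈ w.asIdeal →
      Run7.h23.Lo.RegAt w g (f.map (algebraMap (𝓞 F) (𝓞 K))) := by
    intro w hw
    haveI := w.isPrime
    have hvp : (w.asIdeal.comap (algebraMap (𝓞 F) (𝓞 K))).IsPrime := Ideal.comap_isPrime _ _
    have h2v : (2 : 𝓞 F) ∈ w.asIdeal.comap (algebraMap (𝓞 F) (𝓞 K)) := by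
      rw [Ideal.mem_comap, map_ofNat]; exact hw
    have hv0 : w.asIdeal.comap (algebraMap (𝓞 F) (𝓞 K)) ≠ ⊥ := by
      intro h
      rw [h, Ideal.mem_bot] at h2v
      exact two_ne_zero h2v
    set v : HeightOneSpectrum (𝓞 F) := ⟨_, hvp, hv0⟩ with hv
    have hvw : v.asIdeal.map (algebraMap (𝓞 F) (𝓞 K)) ≤ w.asIdeal := Ideal.map_comap_le
    exact Run7.h23.Gn.reg_over hvw (h2s v h2v w hvw).1 (hR v h2v)
  have hinf : ∀ (L Ω N A : Type) [Field L] [Field Ω] [Field N] [Field A] [Algebra K L] [Algebra L Ω]
    [Algebra K Ω] [Algebra L N] [Algebra K N] [Algebra K A] [IsScalarTower K L Ω]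
    [IsScalarTower K L N] [IsAlgClosure L Ω] [IsAlgClosure K A] (e : N →ₐ[L] Ω)
    (s : GalSection K L N A) (x y : L), y ^ 2 = aeval x P → Geometric e s →
    ∀ v : HeightOneSpectrum (𝓞 K), (2 : 𝓞 K) ∈ v.asIdeal →
    ∃ q : Plc K L (v.adicCompletion K), x ∉ q.W := by
    intro L Ω N A _ _ _ _ _ _ _ _ _ _ _ _ _ _ e s x y hxy hs v hv
    obtain ⟨⟨U, hU, he⟩, hs'⟩ := adm_of hs
    exact Run7.h23.Se.fin2 hg hm' hd' hP hG hS h0 hxy U hU e he s hs' v hv (hR' v hv)
  have hnone : ∀ v : HeightOneSpectrum (𝓞 K), (2 : 𝓞 K) ∈ v.asIdeal →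
      ∀ (L : Type) [Field L] [Algebra K L] (x y : L), y ^ 2 = aeval x P →
      (∀ q : Plc K L (v.adicCompletion K), x ∈ q.W) → NoSection K L := by
    intro v hv L _ _ x y hxy hq Ω N A _ _ _ _ _ _ _ _ _ _ _ _ e s hs
    obtain ⟨q, h⟩ := hinf L Ω N A e s x y hxy hs v hv
    exact h (hq q)
  refine ⟨?_, ?_, hnone, ?_, ?_⟩
  · intro L Ω N A _ _ _ _ _ _ _ _ _ _ _ _ _ _ e s x y hxy hs n
    obtain ⟨⟨U, hU, he⟩, hs'⟩ := adm_of hs
    exact Run7.h23.Se.glb1 hG hS h0 x y U hU e he s hs' n
  · intro L Ω N A _ _ _ _ _ _ _ _ _ _ _ _ _ _ e s x y hxy hs v hv C' _ _ _ _ _ p hp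
    obtain ⟨⟨U, hU, he⟩, hs'⟩ := adm_of hs
    exact Run7.h23.Se.fin1 hg hm' hd' hP hG hS h0 hxy U hU e he s hs' v hv (hR' v hv) p hp
  · intro v hv c hc h hh L _ _ x y z hxy hz
    refine hnone v hv L x y hxy fun q => ?_
    by_contra hx
    obtain ⟨d, hd1⟩ := Run7.h23.Se.sq_of q hPm hPd hh hxy hz hx
    exact hc ⟨d, by rw [hd1, pow_two]⟩
  · intro v hv c n hc h hh L _ _ x y z hxy hz
    obtain ⟨w, hw⟩ := exists_above (K := K) v
    obtain ⟨h1, h2⟩ := h2s v hv w hw
    have hw2 : (2 : 𝓞 K) ∈ w.asIdeal := by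
      have h3 := hw (Ideal.mem_map_of_mem _ hv)
      rwa [map_ofNat] at h3
    refine hnone w hw2 L x y hxy fun q => ?_
    by_contra hx
    obtain ⟨d, hd1⟩ := Run7.h23.Se.sq_of q hPm hPd hh hxy hz hx
    obtain ⟨t, ht⟩ := Run7.h23.Se.sq_nf hw h1 h2 hd1 n
    exact hc t ht

/-- For every number field `F`, every `g ≥ 1`, every finite set `T` of primes of `F` and every finite
extension `K₀` of `F` there are a finite set `S` of primes of `F`, not over `2`, not in `T` and completely split in
`K₀`, and `c > 0` such that for all large `B` at least `c` times the number of all monic polynomials `f` of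
degree `2 g + 1` over the ring of integers without term of degree `2 g` and of height at most `B` are irreducible
over `F`, minimal, and have the property: for EVERY finite Galois extension `K` of `F` of 2-power degree in
which the primes over `2`, the primes in `S` and the real places split completely and every ramified prime
is in `T` or is a prime modulo which `f` is irreducible, the birational sections and the locally geometric
sections of all curves over `K` with a map to `y ^ 2 = f(x)` have the properties (1), …, (5) above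
(`OnlyInfinity`). -/
theorem result (F : Type) [Field F] [NumberField F] (g : ℕ) (hg : 1 ≤ g)
    (T : Finset (HeightOneSpectrum (𝓞 F))) (K₀ : Type) [Field K₀] [NumberField K₀] [Algebra F K₀] :
    ∃ S : Finset (HeightOneSpectrum (𝓞 F)),
      (∀ 𝔭 ∈ S, (2 : 𝓞 F) ∉ 𝔭.asIdeal ∧ 𝔭 ∉ T ∧ SplitsCompletely K₀ 𝔭) ∧
      ∃ c : ℝ, 0 < c ∧ ∀ᶠ B : ℕ in atTop,
        (Polys F g B).Finite ∧ 0 < (Polys F g B).ncard ∧
        c * ((Polys F g B).ncard : ℝ) ≤
          (({f ∈ Polys F g B | Irreducible (f.map (algebraMap (𝓞 F) F)) ∧ IsMinimal g f ∧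
            Uniform S T f}).ncard : ℝ) := by
  obtain ⟨S, hS, c, hc, B₀, h⟩ := Run7.h23.Gn.mainI2 g F hg T K₀
  refine ⟨S, fun v hv => ?_, c, hc, ?_⟩
  · obtain ⟨h1, h2, h3⟩ := hS v hv
    exact ⟨h1, h2, Run7.h23.Gn.spI_of_sp h3⟩
  filter_upwards [eventually_ge_atTop B₀] with B hB
  obtain ⟨hfin, hle⟩ := h B hB
  have hset : {f : (𝓞 F)[X] | Pool.Agent.N783.PF.Ht g B f} = Polys F g B := by
    ext f
    exact ht_iff g B f
  rw [hset] at hfin hle
  refine ⟨hfin, (Set.ncard_pos hfin).2 ⟨_, mem F g B⟩, hle.trans ?_⟩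
  have h3 : {f : (𝓞 F)[X] | Pool.Agent.N783.PF.Ht g B f ∧
      Irreducible (Pool.Agent.N783.PF.fF f) ∧ Pool.Agent.N783.PF.Min g f ∧
      Run7.h23.Gn.GoodP S T f ∧ ∀ v : HeightOneSpectrum (𝓞 F), (2 : 𝓞 F) ∈ v.asIdeal →
        Run7.h23.Lo.RegAt v g f} ⊆
      {f ∈ Polys F g B | Irreducible (f.map (algebraMap (𝓞 F) F)) ∧ IsMinimal g f ∧
        Uniform S T f} := by
    rintro f ⟨hf, hi, hm, hg', hR⟩
    refine ⟨(ht_iff g B f).1 hf, hi, hm, ?_⟩
    intro K _ _ _ _ hK
    obtain ⟨n, hn⟩ := hK.degree
    obtain ⟨h4, h5⟩ := hg' K n hn (fun v hv => Run7.h23.Gn.sp_of_spI (hK.two v hv))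
      (fun v hv => Run7.h23.Gn.sp_of_spI (hK.split v hv)) hK.real
      (fun v hv => hK.ramified v (by
        by_contra hc
        exact hv (Run7.h23.Gn.un_of_not hc)))
    have h6 := Pool.Agent.N783.PF.jac (f := f.map (algebraMap (𝓞 F) (𝓞 K))) (hf.mon.map _)
      (by rw [hf.mon.natDegree_map, hf.deg]; exact odd_two_mul_add_one g) h4 h5
    rw [Run7.h23.Gn.fF_map] at h6 h4
    exact only hg hf.mon hf.deg h4 h6.1 h6.2 hR hK.two
  have h4 := Set.ncard_le_ncard h3 (hfin.subset fun f hf => hf.1)
  exact_mod_cast h4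

end Pool.Agent.Results.MP_2f3286_ag.OddHyperellipticTwoExtensions
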